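import Pool.Agent.helper84.LP.SpecG

/-!
# Project LP (MP_07c750): row MO2, the holonomy is a Moebius map (adapted from helper32/T1/MOB.lean)
-/

open scoped MatrixGroups ContDiff Topology UpperHalfPlane ComplexConjugate
open UpperHalfPlane MeasureTheory Filter Set

set_option autoImplicit false

namespace Pool.Agent.LP

open Pool.Agent.RS
open Pool.Agent.MS (bq BB BA SF pf)
open Pool.Agent.HV (FW)
open Pool.Agent.EN (XG MG mkX mkM fl pr)
open Pool.Agent.ER (Low LowJ)

noncomputable section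

lemma MO2_lc (w : ℝ) : ((lM w : SL(2, ℝ)) : Matrix (Fin 2) (Fin 2) ℝ) = !![1, 0; w, 1] := rfl

lemma MO2_ac (τ : ℝ) : ((aM τ : SL(2, ℝ)) : Matrix (Fin 2) (Fin 2) ℝ) =
    !![Real.exp (τ / 2), 0; 0, Real.exp (-(τ / 2))] := rfl

lemma MO2_nc (x : ℝ) : ((nM x : SL(2, ℝ)) : Matrix (Fin 2) (Fin 2) ℝ) = !![1, x; 0, 1] := rfl

/-- the product of the four matrices -/
lemma MO2_lhs (w τ x V : ℝ) : ((lM w * aM τ * nM x * lM V : SL(2, ℝ)) : Matrix (Fin 2) (Fin 2) ℝ) =
    !![Real.exp (τ / 2) * (1 + x * V), x * Real.exp (τ / 2);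
      w * Real.exp (τ / 2) + dX w τ x * V, dX w τ x] := by
  rw [Matrix.SpecialLinearGroup.coe_mul, Matrix.SpecialLinearGroup.coe_mul,
    Matrix.SpecialLinearGroup.coe_mul, MO2_lc, MO2_lc, MO2_ac, MO2_nc]
  rw [Matrix.mul_fin_two, Matrix.mul_fin_two, Matrix.mul_fin_two]
  unfold dX
  rw [← Matrix.ext_iff]
  intro i j
  fin_cases i <;> fin_cases j <;> simp <;> first | (left; ring) | ring

lemma MO2_rhs (u τ x : ℝ) : ((lM u * aM τ * nM x : SL(2, ℝ)) : Matrix (Fin 2) (Fin 2) ℝ) =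
    !![Real.exp (τ / 2), x * Real.exp (τ / 2);
      u * Real.exp (τ / 2), Real.exp (-(τ / 2)) + u * x * Real.exp (τ / 2)] := by
  rw [Matrix.SpecialLinearGroup.coe_mul, Matrix.SpecialLinearGroup.coe_mul, MO2_lc, MO2_ac, MO2_nc]
  rw [Matrix.mul_fin_two, Matrix.mul_fin_two]
  rw [← Matrix.ext_iff]
  intro i j
  fin_cases i <;> fin_cases j <;> simp <;> ring

lemma MO2_exp (y b : ℝ) (hb : 0 < b) (hb1 : b ≤ 1 / 1000) (hy : |y| ≤ b / 2) :
    |Real.exp y - 1| ≤ 6 / 10 * b := by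
  have h1 : |y| ≤ 1 := by linarith
  have h2 := Real.abs_exp_sub_one_sub_id_le h1
  have h3 : y ^ 2 ≤ b / 1000 := by
    have h4 : y ^ 2 = |y| ^ 2 := (sq_abs y).symm
    have h5 := abs_nonneg y
    rw [h4]
    nlinarith
  have h6 : |Real.exp y - 1| ≤ |Real.exp y - 1 - y| + |y| := by
    calc |Real.exp y - 1| = |(Real.exp y - 1 - y) + y| := by congr 1; ring
      _ ≤ _ := abs_add_le _ _
  linarith

theorem MO2_proof : MO2_stmt := by
  intro b0 w τ x V hb hb1 hw hτ hx hV
  obtain ⟨hVa, hVb⟩ := abs_le.mp hV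
  set E : ℝ := Real.exp (τ / 2) with hE
  set E' : ℝ := Real.exp (-(τ / 2)) with hE'
  have hEE : E * E' = 1 := by
    rw [hE, hE', ← Real.exp_add]
    simp
  have hE0 : 0 < E := Real.exp_pos _
  have hτ2 : |τ / 2| ≤ b0 / 2 := by
    rw [abs_div, abs_of_pos (by norm_num : (0 : ℝ) < 2)]
    linarith
  have hE1 : |E - 1| ≤ 6 / 10 * b0 := MO2_exp _ b0 hb hb1 hτ2
  have hE1' : |E' - 1| ≤ 6 / 10 * b0 := MO2_exp _ b0 hb hb1 (by rw [abs_neg]; exact hτ2)
  obtain ⟨hE1a, hE1b⟩ := abs_le.mp hE1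
  obtain ⟨hE2a, hE2b⟩ := abs_le.mp hE1'
  set d : ℝ := dX w τ x with hd
  have hdE : d = E' + w * x * E := rfl
  have hwx : |w * x| ≤ b0 / 1000 := by
    rw [abs_mul]
    calc |w| * |x| ≤ b0 * b0 := mul_le_mul hw hx (abs_nonneg _) hb.le
      _ ≤ b0 / 1000 := by nlinarith
  have hwxE : |w * x * E| ≤ b0 / 500 := by
    rw [abs_mul, abs_of_pos hE0]
    calc |w * x| * E ≤ b0 / 1000 * 2 := mul_le_mul hwx (by linarith) hE0.le (by positivity)
      _ = b0 / 500 := by ring
  obtain ⟨hwxa, hwxb⟩ := abs_le.mp hwxE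
  have hd1 : |d - 1| ≤ 7 / 10 * b0 := by
    rw [hdE, abs_le]
    constructor <;> linarith
  obtain ⟨hda, hdb⟩ := abs_le.mp hd1
  have hd0 : 0 < d := by linarith
  have hXX : sX w τ x = x * E / d := rfl
  have hX1 : |sX w τ x| ≤ 2 * b0 := by
    rw [hXX, abs_div, abs_mul, abs_of_pos hE0, abs_of_pos hd0, div_le_iff₀ hd0]
    calc |x| * E ≤ b0 * (1 + 6 / 10 * b0) := mul_le_mul hx (by linarith) hE0.le hb.le
      _ ≤ 2 * b0 * d := by nlinarith
  have hW1 : |w * E / d| ≤ 2 * b0 := by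
    rw [abs_div, abs_mul, abs_of_pos hE0, abs_of_pos hd0, div_le_iff₀ hd0]
    calc |w| * E ≤ b0 * (1 + 6 / 10 * b0) := mul_le_mul hw (by linarith) hE0.le hb.le
      _ ≤ 2 * b0 * d := by nlinarith
  refine ⟨by linarith, hX1, hW1, ?_⟩
  -- the new coordinates
  obtain ⟨hxa, hxb⟩ := abs_le.mp hx
  obtain ⟨hwa, hwb⟩ := abs_le.mp hw
  have hxVabs : |x * V| ≤ b0 := by
    rw [abs_mul]
    calc |x| * |V| ≤ b0 * 1 := mul_le_mul hx hV (abs_nonneg _) hb.le
      _ = b0 := mul_one _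
  obtain ⟨hxVa, hxVb⟩ := abs_le.mp hxVabs
  have h1V : 0 < 1 + x * V := by linarith
  set F : ℝ := E * (1 + x * V) with hF
  have hF0 : 0 < F := mul_pos hE0 h1V
  have hFa : 995 / 1000 ≤ F := by
    rw [hF]
    nlinarith
  refine ⟨(w * E + d * V) / F, τ + 2 * Real.log (1 + x * V), x / (1 + x * V), ?_, ?_, ?_, ?_, ?_⟩
  · rw [abs_div, abs_of_pos hF0, div_le_iff₀ hF0]
    have h1 : |w * E| ≤ b0 * 2 := by
      rw [abs_mul, abs_of_pos hE0]
      exact mul_le_mul hw (by linarith) hE0.le hb.le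
    have h2 : |d * V| ≤ (1 + 7 / 10 * b0) * 1 := by
      rw [abs_mul, abs_of_pos hd0]
      exact mul_le_mul (by linarith) hV (abs_nonneg _) (by linarith)
    have h3 := abs_add_le (w * E) (d * V)
    nlinarith
  · have h1 : Real.log (1 + x * V) ≤ 4 * b0 := by
      have := Real.log_le_sub_one_of_pos h1V
      linarith
    have h2 : -(5 * b0) ≤ Real.log (1 + x * V) := by
      have h3 := Real.one_sub_inv_le_log_of_pos h1V
      have h4 : -(5 * b0) ≤ 1 - (1 + x * V)⁻¹ := by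
        have h5 : (1 + x * V)⁻¹ ≤ 1 + 5 * b0 := by
          rw [inv_le_comm₀ h1V (by linarith)]
          rw [inv_le_iff_one_le_mul₀ (by linarith)]
          nlinarith
        linarith
      linarith
    obtain ⟨hta, htb⟩ := abs_le.mp hτ
    rw [abs_le]
    constructor <;> linarith
  · rw [abs_div, abs_of_pos h1V, div_le_iff₀ h1V]
    nlinarith
  · apply Subtype.ext
    have hexp : Real.exp ((τ + 2 * Real.log (1 + x * V)) / 2) = F := by
      rw [show (τ + 2 * Real.log (1 + x * V)) / 2 = τ / 2 + Real.log (1 + x * V) by ring, Real.exp_add,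
        Real.exp_log h1V]
    have hexp' : Real.exp (-((τ + 2 * Real.log (1 + x * V)) / 2)) = F⁻¹ := by
      rw [Real.exp_neg, hexp]
    have hL := MO2_lhs w τ x V
    have hR := MO2_rhs ((w * E + d * V) / F) (τ + 2 * Real.log (1 + x * V)) (x / (1 + x * V))
    rw [hexp, hexp'] at hR
    refine hL.trans (Eq.trans ?_ hR.symm)
    have hd' : dX w τ x = d := rfl
    rw [hd', ← hE, ← hF]
    have a1 : x * E = x / (1 + x * V) * F := by
      rw [hF]
      field_simp
    have a2 : w * E + d * V = (w * E + d * V) / F * F := by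
      field_simp
    have a3 : d = F⁻¹ + (w * E + d * V) / F * (x / (1 + x * V)) * F := by
      have h1 : (w * E + d * V) / F * (x / (1 + x * V)) * F = (w * E + d * V) / F * (x * E) := by
        rw [a1]; ring
      rw [h1]
      have h2 : F⁻¹ + (w * E + d * V) / F * (x * E) = (1 + (w * E + d * V) * (x * E)) / F := by
        field_simp
      rw [h2, eq_div_iff hF0.ne', hF]
      have h3 : d * E = 1 + w * x * E ^ 2 := by
        rw [hdE]
        linear_combination hEE
      linear_combination h3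
    rw [← a1, ← a2, ← a3]
  · have h3 : d * E = 1 + w * x * E ^ 2 := by
      rw [hdE]
      linear_combination hEE
    have h5 : 1 - sX w τ x * ((w * E + d * V) / F) = 1 / (d * F) := by
      rw [hXX]
      have h6 : d * F - x * E * (w * E + d * V) = 1 := by
        rw [hF]
        linear_combination h3
      have h7 : 1 - x * E / d * ((w * E + d * V) / F) = (d * F - x * E * (w * E + d * V)) / (d * F) := by
        field_simp
      rw [h7, h6]
    unfold mm
    rw [h5]
    field_simp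
    ring

end

end Pool.Agent.LP
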